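import Mathlib
import Pool.Agent.Work.MP_4523ee_co.Fp.Main

/-- Let `F` be a finite field of odd characteristic. For every density `δ > 0` and all large `n`,
every `δ`-dense subset of a finite `F`-vector space `W` contains two points `a` and `a + φ x` with
`x ≠ 0`, for every quadratic map `φ` from `F ^ n` to `W`; the threshold does not depend on `W`
or `φ`. -/
theorem Pool.Agent.Results.MP_4523ee_co.FiniteField.result
    (F : Type) [Field F] [Fintype F] (hF : ringChar F ≠ 2) (δ : ℝ) (hδ : 0 < δ) :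
    ∃ n₀ : ℕ, ∀ n : ℕ, n₀ ≤ n → ∀ (W : Type) [AddCommGroup W] [Module F W] [Fintype W]
      (φ : QuadraticMap F (Fin n → F) W) (A : Finset W),
      δ * (Fintype.card W : ℝ) ≤ (A.card : ℝ) →
      ∃ a ∈ A, ∃ x : Fin n → F, x ≠ 0 ∧ a + φ x ∈ A := by
  haveI : Fact (ringChar F).Prime := ⟨CharP.char_is_prime F _⟩
  letI : Algebra (ZMod (ringChar F)) F := ZMod.algebra F (ringChar F)
  obtain ⟨n₀, h⟩ := Pool.Agent.Work.MP_4523ee_co.Fp.main hF δ hδ
  refine ⟨n₀, fun n hn W _ _ _ φ A hA => ?_⟩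
  letI : Module (ZMod (ringChar F)) W := Module.compHom W (algebraMap (ZMod (ringChar F)) F)
  haveI : IsScalarTower (ZMod (ringChar F)) F W :=
    ⟨fun a b w => by rw [Algebra.smul_def, mul_smul]; rfl⟩
  let ι : (Fin n → ZMod (ringChar F)) →ₗ[ZMod (ringChar F)] (Fin n → F) :=
    (Algebra.linearMap (ZMod (ringChar F)) F).compLeft (Fin n)
  obtain ⟨a, ha, x, hx, h'⟩ := h n hn W ((φ.restrictScalars (S := ZMod (ringChar F))).comp ι) A hA
  refine ⟨a, ha, ι x, fun h0 => hx (funext fun i => ?_), h'⟩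
  exact (algebraMap (ZMod (ringChar F)) F).injective (by simpa [ι] using congrFun h0 i)
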