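import Mathlib
import Pool.Agent.Work.MP_4523ee_co.Rect

/-- Every dense family of subsets of the square `[N] ^ 2` contains two members `α` and
`α ∪ (γ × γ')`, with `γ × γ'` disjoint from `α` and `γ`, `γ'` disjoint nonempty sets of the same
size. -/
theorem Pool.Agent.Results.MP_4523ee_co.Rect.result :
    ∀ δ : ℝ, 0 < δ →
      ∃ N₀ : ℕ, ∀ N : ℕ, N₀ ≤ N → ∀ E : Finset (Finset (Fin 2 → Fin N)),
        δ * (2 ^ (N ^ 2) - 1) ≤ (E.card : ℝ) →
        ∃ α : Finset (Fin 2 → Fin N), ∃ γ γ' : Finset (Fin N),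
          α.Nonempty ∧ γ.Nonempty ∧ γ.card = γ'.card ∧ Disjoint γ γ' ∧
          Disjoint α (Fintype.piFinset ![γ, γ']) ∧
          α ∈ E ∧ α ∪ Fintype.piFinset ![γ, γ'] ∈ E :=
  Pool.Agent.Work.MP_4523ee_co.rect_main
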