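import Mathlib
import Pool.Agent.Work.MP_4523ee_co.F2.Main2

/-- For every density `δ > 0`, every size `t` and all large `N`, every `δ`-dense family of subsets
of the square `[N] × [N]` contains two members whose symmetric difference is a square `γ × γ` with
`γ` of size at least `t`. -/
theorem Pool.Agent.Results.MP_4523ee_co.SymmDiff.result (δ : ℝ) (hδ : 0 < δ) (t : ℕ) :
    ∃ N₀ : ℕ, ∀ N : ℕ, N₀ ≤ N → ∀ E : Finset (Finset (Fin N × Fin N)),
      δ * 2 ^ (N ^ 2) ≤ (E.card : ℝ) →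
      ∃ α ∈ E, ∃ γ : Finset (Fin N), t ≤ γ.card ∧ symmDiff α (γ ×ˢ γ) ∈ E :=
  Pool.Agent.Work.MP_4523ee_co.F2.sets_t_of_aS Pool.Agent.Work.MP_4523ee_co.F2.aS_two δ hδ t
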