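import Mathlib
import Pool.Agent.Work.MP_4523ee_co.Threshold

/-- The case `k = 2` of the density polynomial Hales-Jewett conjecture holds, in every degree
`d ≥ 1`, for all densities above `(2 ^ (d - 1) - 1) / (2 ^ d - 1)`. -/
theorem Pool.Agent.Results.MP_4523ee_co.Threshold.result :
    ∀ d : ℕ, 1 ≤ d → ∀ δ : ℝ, ((2 : ℝ) ^ (d - 1) - 1) / (2 ^ d - 1) < δ →
      ∃ N₀ : ℕ, ∀ N : ℕ, N₀ ≤ N → ∀ E : Finset (Finset (Fin d → Fin N)),
        δ * (2 ^ (N ^ d) - 1) ≤ (E.card : ℝ) →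
        ∃ α : Finset (Fin d → Fin N), ∃ γ : Finset (Fin N),
          α.Nonempty ∧ γ.Nonempty ∧ Disjoint α (Fintype.piFinset fun _ : Fin d => γ) ∧
          α ∈ E ∧ α ∪ (Fintype.piFinset fun _ : Fin d => γ) ∈ E :=
  Pool.Agent.Work.MP_4523ee_co.threshold_main
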